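import Pool.Agent.R565.QF.Fam

/-!
# Polynomials of degree at most two in all variables but two
-/

set_option autoImplicit false

namespace Pool.Agent.R565.QF

open MvPolynomial Pool.Agent.TH783.CE

section degtwo

variable {R : Type} [CommRing R] {N : ℕ}

lemma eval₂_monomial_single_add {S : Type} [CommRing S] (φ : R →+* S) (x : Fin N → S) (i : Fin N)
    (m : Fin N →₀ ℕ) (r : R) : eval₂ φ x (monomial (Finsupp.single i 1 + m) r) =
      x i * eval₂ φ x (monomial m r) := by
  rw [show (monomial (Finsupp.single i 1 + m)) r = X i * monomial m r by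
    rw [X, monomial_mul, one_mul], eval₂_mul, eval₂_X]

lemma split_off' {m : Fin N →₀ ℕ} (hm : m ≠ 0) : ∃ i m', m = Finsupp.single i 1 + m' ∧
    m.degree = m'.degree + 1 := by
  obtain ⟨i, hi⟩ : ∃ i, m i ≠ 0 := by
    by_contra h
    push Not at h
    exact hm (Finsupp.ext h)
  have h1 : m = Finsupp.single i 1 + (m - Finsupp.single i 1) := by
    ext j
    rw [Finsupp.add_apply, Finsupp.tsub_apply]
    by_cases h : j = i
    · subst h
      rw [Finsupp.single_eq_same]
      omega
    · rw [Finsupp.single_eq_of_ne h]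
      omega
  refine ⟨i, m - Finsupp.single i 1, h1, ?_⟩
  conv_lhs => rw [h1]
  rw [map_add, Finsupp.degree_single, add_comm]

lemma deg_le_of_mem' {Q : MvPolynomial (Fin N) R} {d : ℕ} (hQ : Q.totalDegree ≤ d)
    {m : Fin N →₀ ℕ} (hm : m ∈ Q.support) : m.degree ≤ d := by
  have h : m.degree = m.sum fun _ e => e := by
    simp [Finsupp.degree_eq_sum, Finsupp.sum_fintype]
  rw [h]
  exact (le_totalDegree hm).trans hQ

/-- polynomials of degree at most two -/
lemma deg_two_ring (Q : MvPolynomial (Fin N) R) (hQ : Q.totalDegree ≤ 2) :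
    ∃ (c : R) (l : Fin N → R) (b : Fin N → Fin N → R), ∀ (S : Type) [CommRing S] (φ : R →+* S)
      (x : Fin N → S), eval₂ φ x Q = qv (φ c) (fun i => φ (l i)) (fun i j => φ (b i j)) x := by
  classical
  rw [Q.as_sum]
  refine Finset.sum_induction (fun m => monomial m (coeff m Q)) (fun P => ∃ (c : R)
    (l : Fin N → R) (b : Fin N → Fin N → R), ∀ (S : Type) [CommRing S] (φ : R →+* S)
      (x : Fin N → S), eval₂ φ x P = qv (φ c) (fun i => φ (l i)) (fun i j => φ (b i j)) x)
    ?_ ?_ ?_
  · rintro P P' ⟨c, l, b, h⟩ ⟨c', l', b', h'⟩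
    refine ⟨c + c', fun i => l i + l' i, fun i j => b i j + b' i j, fun S _ φ x => ?_⟩
    rw [eval₂_add, h, h']
    simp only [qv, map_add, add_mul, Finset.sum_add_distrib]
    ring
  · exact ⟨0, fun _ => 0, fun _ _ => 0, fun S _ φ x => by simp [qv]⟩
  · intro m hm
    have hd := deg_le_of_mem' hQ hm
    generalize coeff m Q = r
    by_cases h0 : m = 0
    · subst h0
      exact ⟨r, fun _ => 0, fun _ _ => 0, fun S _ φ x => by simp [qv]⟩
    · obtain ⟨i, m', h1, h2⟩ := split_off' h0
      by_cases h3 : m' = 0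
      · refine ⟨0, Pi.single i r, fun _ _ => 0, fun S _ φ x => ?_⟩
        rw [h1, eval₂_monomial_single_add, h3]
        simp only [qv, map_zero, zero_mul, Finset.sum_const_zero, add_zero, zero_add,
          monomial_zero', eval₂_C]
        rw [Finset.sum_eq_single i]
        · rw [Pi.single_eq_same, mul_comm]
        · intro j _ hj
          rw [Pi.single_eq_of_ne hj, map_zero, zero_mul]
        · intro h
          exact absurd (Finset.mem_univ _) h
      · obtain ⟨j, m'', h4, h5⟩ := split_off' h3
        have h6 : m'' = 0 := by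
          rw [← Finsupp.degree_eq_zero_iff]
          omega
        refine ⟨0, fun _ => 0, fun i' j' => if i' = i ∧ j' = j then r else 0,
          fun S _ φ x => ?_⟩
        rw [h1, eval₂_monomial_single_add, h4, eval₂_monomial_single_add, h6]
        simp only [qv, map_zero, zero_mul, Finset.sum_const_zero, add_zero, zero_add,
          monomial_zero', eval₂_C]
        rw [Finset.sum_eq_single i]
        · rw [Finset.sum_eq_single j]
          · rw [if_pos ⟨rfl, rfl⟩]
            ring
          · intro k _ hk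
            rw [if_neg (fun h => hk h.2), map_zero, zero_mul]
          · intro h
            exact absurd (Finset.mem_univ _) h
        · intro k _ hk
          refine Finset.sum_eq_zero fun k' _ => ?_
          rw [if_neg (fun h => hk h.1), map_zero, zero_mul]
        · intro h
          exact absurd (Finset.mem_univ _) h

end degtwo

section

variable {K : Type} [Field K] [CharZero K] {O : Set K} {n : ℕ}

/-- fixing the second variable, the third variable becomes a coefficient -/
noncomputable def pslice (b : K) (f : MvPolynomial (Fin 3 ⊕ Fin n) K) :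
    MvPolynomial (Fin (n + 1)) (Polynomial K) :=
  f.eval₂ (C.comp Polynomial.C)
    (Sum.elim ![X 0, C (Polynomial.C b), C Polynomial.X] fun j => X j.succ)

omit [CharZero K] in
lemma eval_pslice (b : K) (f : MvPolynomial (Fin 3 ⊕ Fin n) K) (w : K) (x : Fin (n + 1) → K) :
    eval₂ (Polynomial.evalRingHom w) x (pslice b f) =
      eval (Sum.elim ![x 0, b, w] fun j => x j.succ) f := by
  have h0 : eval₂ (Polynomial.evalRingHom w) x (pslice b f) =
      eval₂Hom (Polynomial.evalRingHom w) x (pslice b f) := rfl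
  rw [h0, pslice, eval₂_comp_left]
  have h1 : (eval₂Hom (Polynomial.evalRingHom w) x).comp (C.comp Polynomial.C) =
      RingHom.id K := by
    ext r
    simp
  have h2 : (⇑(eval₂Hom (Polynomial.evalRingHom w) x) ∘ (Sum.elim ![X 0, C (Polynomial.C b),
      C Polynomial.X] fun j : Fin n => X j.succ)) = Sum.elim ![x 0, b, w] fun j => x j.succ := by
    funext s
    rcases s with s | s
    · fin_cases s
      · simp
      · simp
      · simp
    · simp
  rw [h1, h2]
  rfl

omit [CharZero K] in
lemma pslice_degree (b : K) (f : MvPolynomial (Fin 3 ⊕ Fin n) K)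
    (hf : ∀ m ∈ f.support, m (Sum.inl 0) + ∑ j, m (Sum.inr j) ≤ 2) :
    (pslice b f).totalDegree ≤ 2 := by
  rw [pslice, eval₂_eq']
  refine totalDegree_finsetSum_le fun m hm => ?_
  refine (totalDegree_mul _ _).trans ?_
  rw [RingHom.comp_apply, totalDegree_C, zero_add]
  refine (totalDegree_finsetProd _ _).trans ?_
  refine le_trans ?_ (hf m hm)
  rw [Fintype.sum_sum_type, Fin.sum_univ_three]
  have e1 : (totalDegree ((Sum.elim ![X 0, C (Polynomial.C b), C Polynomial.X]
      (fun j : Fin n => X j.succ) (Sum.inl 0) :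
      MvPolynomial (Fin (n + 1)) (Polynomial K)) ^ m (Sum.inl 0))) ≤ m (Sum.inl 0) := by
    refine (totalDegree_pow _ _).trans ?_
    simp
  have e2 : (totalDegree ((Sum.elim ![X 0, C (Polynomial.C b), C Polynomial.X]
      (fun j : Fin n => X j.succ) (Sum.inl 1) :
      MvPolynomial (Fin (n + 1)) (Polynomial K)) ^ m (Sum.inl 1))) ≤ 0 := by
    refine (totalDegree_pow _ _).trans ?_
    simp
  have e2' : (totalDegree ((Sum.elim ![X 0, C (Polynomial.C b), C Polynomial.X]
      (fun j : Fin n => X j.succ) (Sum.inl 2) :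
      MvPolynomial (Fin (n + 1)) (Polynomial K)) ^ m (Sum.inl 2))) ≤ 0 := by
    refine (totalDegree_pow _ _).trans ?_
    simp
  have e3 : ∀ j : Fin n, (totalDegree ((Sum.elim ![X 0, C (Polynomial.C b), C Polynomial.X]
      (fun j : Fin n => X j.succ) (Sum.inr j) : MvPolynomial (Fin (n + 1)) (Polynomial K)) ^
        m (Sum.inr j))) ≤ m (Sum.inr j) := by
    intro j
    refine (totalDegree_pow _ _).trans ?_
    simp
  have e4 := Finset.sum_le_sum fun j (_ : j ∈ (Finset.univ : Finset (Fin n))) => e3 j
  omega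

/-- **Equations of degree at most two in `(a, z)` and of any degree in one more variable `w`.** -/
theorem thin_param (hO : Flat O) (b : K) (f : MvPolynomial (Fin 3 ⊕ Fin n) K)
    (hf : ∀ m ∈ f.support, m (Sum.inl 0) + ∑ j, m (Sum.inr j) ≤ 2)
    (h : ∀ (a w : K) (z : Fin n → K), eval (Sum.elim ![a, b, w] z) f = 0 → a ∈ O) :
    Thin {a : K | ∃ (w : K) (z : Fin n → K), eval (Sum.elim ![a, b, w] z) f = 0} := by
  obtain ⟨c, l, β, hq⟩ := deg_two_ring (pslice b f) (pslice_degree b f hf)
  have key : ∀ (w : K) (x : Fin (n + 1) → K), qv (c.eval w) (ev1 w l) (ev2 w β) x =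
      eval (Sum.elim ![x 0, b, w] fun j => x j.succ) f := by
    intro w x
    rw [← eval_pslice, hq]
    rfl
  refine (thin_family hO c l β fun w x hx => ?_).mono ?_
  · rw [key] at hx
    exact h _ _ _ hx
  · rintro a ⟨w, z, hz⟩
    refine ⟨w, Fin.cons a z, ?_, rfl⟩
    rw [key]
    simpa using hz

/-- for fixed further variables there are at most two values of the first variable -/
theorem two_param (hO : Flat O) (f : MvPolynomial (Fin (n + 1)) K) (hf : f.totalDegree ≤ 2)
    (h : ∀ x : Fin (n + 1) → K, eval x f = 0 → x 0 ∈ O) :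
    ∃ e₁ e₂ : K, ∀ x : Fin (n + 1) → K, eval x f = 0 → x 0 = e₁ ∨ x 0 = e₂ := by
  obtain ⟨c, l, β, hq⟩ := deg_two_ring f hf
  have key : ∀ x : Fin (n + 1) → K, qv c l β x = eval x f := fun x => (hq K (RingHom.id K) x).symm
  obtain ⟨e₁, e₂, he⟩ := two_values (c := c) (l := l) (b := β) hO fun x hx => h x (by
    rwa [key] at hx)
  exact ⟨e₁, e₂, fun x hx => he x (by rwa [key])⟩

end

end Pool.Agent.R565.QF
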