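import Pool.Agent.R565.QF.Loc

/-!
# Families of quadratic equations over the affine line
-/

set_option autoImplicit false

namespace Pool.Agent.R565.QF

open Polynomial Pool.Agent.TH783.CE

section curve

variable {K : Type} [Field K] [CharZero K] {O : Set K}

/-- the projection of a plane curve into a flat set is thin -/
theorem thin_curve (hO : Flat O) (G : K[X][X]) (h : ∀ a w, G.evalEval a w = 0 → a ∈ O) :
    Thin {a | ∃ w, G.evalEval a w = 0} := by
  have hG : G ≠ 0 := by
    rintro rfl
    exact Flat.no_all hO (q := 1) one_ne_zero fun t _ => h t 0 (by simp)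
  rcases Nat.eq_zero_or_pos G.natDegree with hd | hd
  · rw [eq_C_of_natDegree_eq_zero hd] at hG ⊢
    have hg : G.coeff 0 ≠ 0 := by
      intro h0
      exact hG (by rw [h0, C_0])
    refine Thin.of_finite ?_
    refine (Polynomial.finite_setOfPred_isRoot hg).subset ?_
    rintro a ⟨w, hw⟩
    rw [evalEval_C] at hw
    exact hw
  · have key : ∀ a w : K, (integralNormalization G).evalEval a (G.leadingCoeff.eval a * w) =
        (G.leadingCoeff.eval a) ^ (G.natDegree - 1) * G.evalEval a w := by
      intro a w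
      have := integralNormalization_eval₂_leadingCoeff_mul (p := G) hd (evalRingHom a) w
      simp only [eval₂_evalRingHom, coe_evalRingHom] at this
      exact this
    refine ⟨∅, Set.finite_empty, integralNormalization G, monic_integralNormalization hG,
      fun g hg => ?_, ?_⟩
    · refine Flat.no_all hO (q := G.leadingCoeff) (leadingCoeff_ne_zero.2 hG) fun t ht => ?_
      refine h t (g.eval t / G.leadingCoeff.eval t) ?_
      have h1 := key t (g.eval t / G.leadingCoeff.eval t)
      rw [mul_div_cancel₀ _ ht, evalEval_eval, hg, eval_zero] at h1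
      exact (mul_eq_zero.1 h1.symm).resolve_left (pow_ne_zero _ ht)
    · rintro a ⟨w, hw⟩
      right
      refine ⟨G.leadingCoeff.eval a * w, ?_⟩
      rw [key, hw, mul_zero]

end curve

section fredholm

/-- the Fredholm alternative over a field -/
lemma fredholm_field {F : Type} [Field F] {N : ℕ} (M : Fin N → Fin N → F) (l : Fin N → F) :
    (∃ x : Fin N → F, ∀ i, ∑ j, M i j * x j = l i) ∨
      ∃ u : Fin N → F, (∀ j, ∑ i, u i * M i j = 0) ∧ ∑ i, u i * l i ≠ 0 := by
  let φ : (Fin N → F) →ₗ[F] (Fin N → F) := Matrix.mulVecLin (Matrix.of M)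
  have hφ : ∀ x i, φ x i = ∑ j, M i j * x j := fun x i => rfl
  by_cases h : l ∈ LinearMap.range φ
  · obtain ⟨x, hx⟩ := h
    exact Or.inl ⟨x, fun i => by rw [← hφ, hx]⟩
  · right
    obtain ⟨f, hf, hf'⟩ := Submodule.exists_dual_map_eq_bot_of_notMem h inferInstance
    have hfv : ∀ v : Fin N → F, f v = ∑ i, f (Pi.single i 1) * v i := by
      intro v
      conv_lhs => rw [← Finset.univ_sum_single v, map_sum]
      refine Finset.sum_congr rfl fun i _ => ?_
      have h1 : (Pi.single i (v i) : Fin N → F) = v i • Pi.single i 1 := by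
        ext j
        by_cases h : j = i
        · subst h; simp
        · simp [h]
      rw [h1, map_smul, smul_eq_mul, mul_comm]
    refine ⟨fun i => f (Pi.single i 1), fun j => ?_, ?_⟩
    · have h1 : φ (Pi.single j 1) ∈ LinearMap.range φ := ⟨_, rfl⟩
      have h2 : f (φ (Pi.single j 1)) ∈ Submodule.map f (LinearMap.range φ) := ⟨_, h1, rfl⟩
      rw [hf', Submodule.mem_bot, hfv] at h2
      rw [← h2]
      refine Finset.sum_congr rfl fun i _ => ?_
      rw [hφ]
      congr 1
      rw [Finset.sum_eq_single j]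
      · simp
      · intro k _ hk
        rw [Pi.single_eq_of_ne hk, mul_zero]
      · intro h
        exact absurd (Finset.mem_univ _) h
    · rw [← hfv]
      exact hf

/-- clearing denominators -/
lemma fredholm {K : Type} [Field K] {N : ℕ} (M : Fin N → Fin N → K[X]) (l : Fin N → K[X]) :
    (∃ (q : K[X]) (y : Fin N → K[X]), q ≠ 0 ∧ ∀ i, ∑ j, M i j * y j = q * l i) ∨
      ∃ u : Fin N → K[X], (∀ j, ∑ i, u i * M i j = 0) ∧ ∑ i, u i * l i ≠ 0 := by
  let F := FractionRing K[X]
  have hinj : Function.Injective (algebraMap K[X] F) := IsFractionRing.injective _ _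
  have hclear : ∀ x : Fin N → F, ∃ (q : K[X]) (y : Fin N → K[X]), q ≠ 0 ∧
      ∀ i, algebraMap K[X] F (y i) = algebraMap K[X] F q * x i := by
    intro x
    obtain ⟨q, hq⟩ := IsLocalization.exist_integer_multiples_of_finite (nonZeroDivisors K[X]) x
    choose y hy using hq
    exact ⟨q, y, nonZeroDivisors.ne_zero q.2, fun i => by rw [hy i, Algebra.smul_def]⟩
  rcases fredholm_field (fun i j => algebraMap K[X] F (M i j)) (fun i => algebraMap K[X] F (l i))
    with ⟨x, hx⟩ | ⟨u, hu, hu'⟩
  · left
    obtain ⟨q, y, hq, hy⟩ := hclear x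
    refine ⟨q, y, hq, fun i => hinj ?_⟩
    rw [map_sum, map_mul, ← hx i, Finset.mul_sum]
    refine Finset.sum_congr rfl fun j _ => ?_
    rw [map_mul, hy j]
    ring
  · right
    obtain ⟨q, y, hq, hy⟩ := hclear u
    refine ⟨y, fun j => hinj ?_, fun h0 => hu' ?_⟩
    · rw [map_sum, map_zero]
      have h1 : ∑ i, algebraMap K[X] F (y i * M i j) =
          algebraMap K[X] F q * ∑ i, u i * algebraMap K[X] F (M i j) := by
        rw [Finset.mul_sum]
        refine Finset.sum_congr rfl fun i _ => ?_
        rw [map_mul, hy i]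
        ring
      rw [h1, hu j, mul_zero]
    · have h1 : algebraMap K[X] F (∑ i, y i * l i) =
          algebraMap K[X] F q * ∑ i, u i * algebraMap K[X] F (l i) := by
        rw [map_sum, Finset.mul_sum]
        refine Finset.sum_congr rfl fun i _ => ?_
        rw [map_mul, hy i]
        ring
      rw [h0, map_zero] at h1
      have hq' : algebraMap K[X] F q ≠ 0 := by
        rw [Ne, map_eq_zero_iff _ hinj]
        exact hq
      exact (mul_eq_zero.1 h1.symm).resolve_left hq'

end fredholm

section family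

variable {K : Type} [Field K] [CharZero K] {O : Set K} {n : ℕ}

/-- the value at `w` of the coefficients -/
abbrev ev1 (w : K) (l : Fin n → K[X]) : Fin n → K := fun i => (l i).eval w

/-- the value at `w` of the coefficients -/
abbrev ev2 (w : K) (b : Fin n → Fin n → K[X]) : Fin n → Fin n → K := fun i j => (b i j).eval w

lemma eval_qv (w : K) (c : K[X]) (l : Fin n → K[X]) (b : Fin n → Fin n → K[X])
    (x : Fin n → K[X]) : (qv c l b x).eval w = qv (c.eval w) (ev1 w l) (ev2 w b) (ev1 w x) := by
  simp only [qv, eval_add, eval_finsetSum, eval_mul]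

/-- **Families of quadratic equations over the affine line.** -/
theorem thin_family (hO : Flat O) (c : K[X]) (l : Fin (n + 1) → K[X])
    (b : Fin (n + 1) → Fin (n + 1) → K[X])
    (h : ∀ w x, qv (c.eval w) (ev1 w l) (ev2 w b) x = 0 → x 0 ∈ O) :
    Thin {a | ∃ w x, qv (c.eval w) (ev1 w l) (ev2 w b) x = 0 ∧ x 0 = a} := by
  classical
  -- finitely many values for each `w`
  have hfw : ∀ w : K, {a | ∃ x, qv (c.eval w) (ev1 w l) (ev2 w b) x = 0 ∧ x 0 = a}.Finite := by
    intro w
    obtain ⟨e₁, e₂, he⟩ := two_values hO (h w)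
    refine (Set.toFinite ({e₁, e₂} : Set K)).subset ?_
    rintro a ⟨x, hx, rfl⟩
    rcases he x hx with h1 | h1
    · exact Or.inl h1
    · exact Or.inr h1
  have hcov : ∀ (T : Set K) (E : Set K), T.Finite → E.Finite →
      (∀ w, w ∉ T → ∀ x, qv (c.eval w) (ev1 w l) (ev2 w b) x = 0 → x 0 ∈ E) →
      Thin {a | ∃ w x, qv (c.eval w) (ev1 w l) (ev2 w b) x = 0 ∧ x 0 = a} := by
    intro T E hT hE hTE
    refine Thin.of_finite (((hT.biUnion fun w _ => hfw w).union hE).subset ?_)
    rintro a ⟨w, x, hx, rfl⟩
    by_cases hw : w ∈ T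
    · exact Or.inl (Set.mem_biUnion hw ⟨x, hx, rfl⟩)
    · exact Or.inr (hTE w hw x hx)
  -- the parameters `w` for which only the first coordinate occurs
  let D : Set K := {w | ∀ x y : Fin (n + 1) → K, x 0 = y 0 →
    qv (c.eval w) (ev1 w l) (ev2 w b) x = qv (c.eval w) (ev1 w l) (ev2 w b) y}
  by_cases hD : D.Infinite
  · have hev : ∀ (w : K) (x : Fin (n + 1) → K), ev1 w (fun i => C (x i)) = x :=
      fun w x => funext fun i => eval_C
    have hall : ∀ w, w ∈ D := by
      intro w x y hxy
      have h1 : qv c l b (fun i => C (x i)) - qv c l b (fun i => C (y i)) = 0 := by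
        refine Polynomial.eq_zero_of_infinite_isRoot _ (hD.mono fun w' hw' => ?_)
        show eval w' _ = 0
        rw [eval_sub, eval_qv, eval_qv, hev, hev]
        exact sub_eq_zero.2 (hw' x y hxy)
      have h2 := congrArg (eval w) h1
      rw [eval_sub, eval_qv, eval_qv, eval_zero, hev, hev] at h2
      exact sub_eq_zero.1 h2
    obtain ⟨G, hG⟩ : ∃ G : K[X][X], ∀ a w : K, G.evalEval a w =
        qv (c.eval w) (ev1 w l) (ev2 w b) (Pi.single 0 a) := by
      refine ⟨c.map C + (l 0).map C * C X + (b 0 0).map C * C (X ^ 2), fun a w => ?_⟩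
      rw [evalEval_add, evalEval_add, evalEval_mul, evalEval_mul, evalEval_map_C, evalEval_map_C,
        evalEval_map_C, evalEval_C, evalEval_C, eval_X, eval_pow, eval_X, qv]
      congr 1
      · congr 1
        rw [Finset.sum_eq_single 0]
        · simp
        · intro j _ hj
          rw [Pi.single_eq_of_ne hj, mul_zero]
        · intro h
          exact absurd (Finset.mem_univ _) h
      · rw [Finset.sum_eq_single 0]
        · rw [Finset.sum_eq_single 0]
          · simp [sq]
          · intro j _ hj
            rw [Pi.single_eq_of_ne hj, mul_zero, mul_zero]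
          · intro h
            exact absurd (Finset.mem_univ _) h
        · intro j _ hj
          refine Finset.sum_eq_zero fun k _ => ?_
          rw [Pi.single_eq_of_ne hj, zero_mul, mul_zero]
        · intro h
          exact absurd (Finset.mem_univ _) h
    refine (thin_curve hO G fun a w haw => ?_).mono ?_
    · rw [hG] at haw
      have := h w _ haw
      rwa [Pi.single_eq_same] at this
    · rintro a ⟨w, x, hx, rfl⟩
      refine ⟨w, ?_⟩
      rw [hG, ← hx]
      exact hall w _ _ (by rw [Pi.single_eq_same])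
  rw [Set.not_infinite] at hD
  have hcrit : ∀ w, w ∉ D → ∀ x, qv (c.eval w) (ev1 w l) (ev2 w b) x = 0 →
      ∀ i, gr (ev1 w l) (ev2 w b) x i = 0 := by
    intro w hw x hx
    rcases loc hO (h w) hx with h1 | ⟨γ, κ, -, h1⟩
    · exact h1
    · exfalso
      apply hw
      intro y z hyz
      have h2 := h1 (y - x)
      have h3 := h1 (z - x)
      rw [add_sub_cancel, Pi.sub_apply] at h2 h3
      rw [h2, h3, hyz]
  by_cases hS : {w | w ∉ D ∧ ∃ x, qv (c.eval w) (ev1 w l) (ev2 w b) x = 0}.Infinite
  swap
  · rw [Set.not_infinite] at hS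
    refine hcov (D ∪ {w | w ∉ D ∧ ∃ x, qv (c.eval w) (ev1 w l) (ev2 w b) x = 0}) ∅
      (hD.union hS) Set.finite_empty fun w hw x hx => ?_
    rw [Set.mem_union, not_or] at hw
    exact absurd ⟨hw.1, x, hx⟩ hw.2
  -- a generic critical point
  have hgr : ∀ w x, w ∉ D → qv (c.eval w) (ev1 w l) (ev2 w b) x = 0 → ∀ i,
      ∑ j, ((b i j).eval w + (b j i).eval w) * x j = -(l i).eval w := by
    intro w x hw hx i
    have h1 := hcrit w hw x hx i
    rw [gr] at h1
    linear_combination h1
  rcases fredholm (fun i j => b i j + b j i) (fun i => -l i) with ⟨q, y, hq, hy⟩ | ⟨u, hu, hu'⟩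
  swap
  · exfalso
    apply hu'
    refine Polynomial.eq_zero_of_infinite_isRoot _ (hS.mono ?_)
    rintro w ⟨hw, x, hx⟩
    show eval w _ = 0
    rw [eval_finsetSum]
    have h1 : ∀ i, eval w (u i * -l i) = ∑ j, (u i).eval w *
        (((b i j).eval w + (b j i).eval w) * x j) := by
      intro i
      rw [← Finset.mul_sum, hgr w x hw hx i, eval_mul, eval_neg]
    rw [Finset.sum_congr rfl fun i _ => h1 i, Finset.sum_comm]
    refine Finset.sum_eq_zero fun j _ => ?_
    have h2 := congrArg (eval w) (hu j)
    rw [eval_finsetSum, eval_zero] at h2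
    rw [show (0 : K) = 0 * x j by rw [zero_mul], ← h2, Finset.sum_mul]
    refine Finset.sum_congr rfl fun i _ => ?_
    rw [eval_mul, eval_add]
    ring
  -- its value
  have hyc : ∀ w, q.eval w ≠ 0 → ∀ i,
      gr (ev1 w l) (ev2 w b) (fun j => (y j).eval w / q.eval w) i = 0 := by
    intro w hw i
    have h1 := congrArg (eval w) (hy i)
    rw [eval_finsetSum, eval_mul, eval_neg] at h1
    have h2 : ∑ j, ((b i j).eval w + (b j i).eval w) * ((y j).eval w / q.eval w) =
        (∑ j, ((b i j + b j i) * y j).eval w) / q.eval w := by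
      rw [Finset.sum_div]
      refine Finset.sum_congr rfl fun j _ => ?_
      rw [eval_mul, eval_add]
      ring
    rw [gr]
    show (l i).eval w + ∑ j, ((b i j).eval w + (b j i).eval w) * ((y j).eval w / q.eval w) = 0
    rw [h2, h1]
    field_simp
    ring
  obtain ⟨Φ, hΦ⟩ : ∃ Φ : K[X], ∀ w, q.eval w ≠ 0 → Φ.eval w =
      q.eval w ^ 2 * qv (c.eval w) (ev1 w l) (ev2 w b) (fun j => (y j).eval w / q.eval w) := by
    refine ⟨q ^ 2 * c + q * ∑ i, l i * y i + ∑ i, ∑ j, b i j * (y i * y j), fun w hw => ?_⟩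
    rw [qv, mul_add, mul_add, eval_add, eval_add, eval_mul, eval_mul, eval_pow, eval_finsetSum,
      eval_finsetSum, Finset.mul_sum, Finset.mul_sum, Finset.mul_sum]
    congr 1
    · congr 1
      refine Finset.sum_congr rfl fun i _ => ?_
      rw [eval_mul]
      field_simp
    · refine Finset.sum_congr rfl fun i _ => ?_
      rw [eval_finsetSum, Finset.mul_sum]
      refine Finset.sum_congr rfl fun j _ => ?_
      rw [eval_mul, eval_mul]
      field_simp
  have hqfin : {w : K | q.eval w = 0}.Finite := Polynomial.finite_setOfPred_isRoot hq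
  have hΦ0 : Φ = 0 := by
    refine Polynomial.eq_zero_of_infinite_isRoot _ ((hS.sdiff hqfin).mono ?_)
    rintro w ⟨⟨hw, x, hx⟩, hqw⟩
    show eval w Φ = 0
    have hqw' : q.eval w ≠ 0 := hqw
    rw [hΦ w hqw', (crit_eq (c := c.eval w) (hyc w hqw') (hcrit w hw x hx)).1, hx, mul_zero]
  have hzero : ∀ w, q.eval w ≠ 0 →
      qv (c.eval w) (ev1 w l) (ev2 w b) (fun j => (y j).eval w / q.eval w) = 0 := by
    intro w hw
    have h1 := hΦ w hw
    rw [hΦ0, eval_zero] at h1
    exact (mul_eq_zero.1 h1.symm).resolve_left (pow_ne_zero 2 hw)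
  obtain ⟨e, he⟩ := hO q (y 0) hq fun w hw => h w _ (hzero w hw)
  refine hcov (D ∪ {w | q.eval w = 0}) {e} (hD.union hqfin) (Set.finite_singleton e)
    fun w hw x hx => ?_
  rw [Set.mem_union, not_or] at hw
  have hqw : q.eval w ≠ 0 := hw.2
  have h1 := uniq_of_crit hO (h w) hx (hcrit w hw.1 x hx) (hyc w hqw)
  rw [Set.mem_singleton_iff, h1]
  show (y 0).eval w / q.eval w = e
  rw [he, eval_mul, eval_C]
  field_simp

end family

end Pool.Agent.R565.QF
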