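import Pool.Agent.TH783.CE.Slice

/-!
# Quadratic equations all whose solutions have the first coordinate in a flat set
-/

set_option autoImplicit false

namespace Pool.Agent.R565.QF

open Polynomial Pool.Agent.TH783.CE

/-- the value of a quadratic polynomial -/
def qv {R : Type} [CommRing R] {N : ℕ} (c : R) (l : Fin N → R) (b : Fin N → Fin N → R)
    (x : Fin N → R) : R :=
  c + ∑ i, l i * x i + ∑ i, ∑ j, b i j * (x i * x j)

/-- its gradient -/
def gr {R : Type} [CommRing R] {N : ℕ} (l : Fin N → R) (b : Fin N → Fin N → R)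
    (x : Fin N → R) (i : Fin N) : R :=
  l i + ∑ j, (b i j + b j i) * x j

/-- its quadratic part -/
def qq {R : Type} [CommRing R] {N : ℕ} (b : Fin N → Fin N → R) (x : Fin N → R) : R :=
  ∑ i, ∑ j, b i j * (x i * x j)

section

variable {K : Type} [Field K] {N : ℕ}

/-- the differential as a linear map -/
def dl (l : Fin N → K) (b : Fin N → Fin N → K) (x : Fin N → K) : (Fin N → K) →ₗ[K] K :=
  ∑ i, gr l b x i • LinearMap.proj i

lemma dl_apply (l : Fin N → K) (b : Fin N → Fin N → K) (x v : Fin N → K) :
    dl l b x v = ∑ i, gr l b x i * v i := by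
  simp [dl, LinearMap.sum_apply]

/-- the quadratic part as a bilinear map -/
def bl (b : Fin N → Fin N → K) : (Fin N → K) →ₗ[K] (Fin N → K) →ₗ[K] K :=
  LinearMap.mk₂ K (fun x y => ∑ i, ∑ j, b i j * (x i * y j))
    (fun x x' y => by
      rw [← Finset.sum_add_distrib]
      refine Finset.sum_congr rfl fun i _ => ?_
      rw [← Finset.sum_add_distrib]
      exact Finset.sum_congr rfl fun j _ => by simp only [Pi.add_apply]; ring)
    (fun c x y => by
      rw [smul_eq_mul, Finset.mul_sum]
      refine Finset.sum_congr rfl fun i _ => ?_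
      rw [Finset.mul_sum]
      exact Finset.sum_congr rfl fun j _ => by simp only [Pi.smul_apply, smul_eq_mul]; ring)
    (fun x y y' => by
      rw [← Finset.sum_add_distrib]
      refine Finset.sum_congr rfl fun i _ => ?_
      rw [← Finset.sum_add_distrib]
      exact Finset.sum_congr rfl fun j _ => by simp only [Pi.add_apply]; ring)
    (fun c x y => by
      rw [smul_eq_mul, Finset.mul_sum]
      refine Finset.sum_congr rfl fun i _ => ?_
      rw [Finset.mul_sum]
      exact Finset.sum_congr rfl fun j _ => by simp only [Pi.smul_apply, smul_eq_mul]; ring)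

lemma bl_apply (b : Fin N → Fin N → K) (x y : Fin N → K) :
    bl b x y = ∑ i, ∑ j, b i j * (x i * y j) := rfl

lemma qq_eq (b : Fin N → Fin N → K) (x : Fin N → K) : qq b x = bl b x x := rfl

lemma dl_eq (l : Fin N → K) (b : Fin N → Fin N → K) (x v : Fin N → K) :
    dl l b x v = ∑ i, l i * v i + bl b x v + bl b v x := by
  rw [dl_apply, bl_apply, bl_apply]
  have h1 : ∑ i, ∑ j, b i j * (x i * v j) = ∑ i, ∑ j, b j i * x j * v i := by
    rw [Finset.sum_comm]
    exact Finset.sum_congr rfl fun i _ => Finset.sum_congr rfl fun j _ => by ring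
  rw [h1, ← Finset.sum_add_distrib, ← Finset.sum_add_distrib]
  refine Finset.sum_congr rfl fun i _ => ?_
  rw [gr, add_mul, Finset.sum_mul, add_assoc, ← Finset.sum_add_distrib]
  congr 1
  exact Finset.sum_congr rfl fun j _ => by ring

lemma qv_add (c : K) (l : Fin N → K) (b : Fin N → Fin N → K) (x v : Fin N → K) (s : K) :
    qv c l b (x + s • v) = qv c l b x + s * dl l b x v + s ^ 2 * qq b v := by
  have h1 : ∀ y : Fin N → K, qv c l b y = c + ∑ i, l i * y i + bl b y y := fun y => rfl
  have h2 : ∑ i, l i * (x + s • v) i = ∑ i, l i * x i + s * ∑ i, l i * v i := by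
    rw [Finset.mul_sum, ← Finset.sum_add_distrib]
    exact Finset.sum_congr rfl fun i _ => by
      simp only [Pi.add_apply, Pi.smul_apply, smul_eq_mul]; ring
  rw [h1, h1, dl_eq, qq_eq, h2]
  simp only [map_add, map_smul, LinearMap.add_apply, LinearMap.smul_apply, smul_eq_mul]
  ring

lemma qv_add' (c : K) (l : Fin N → K) (b : Fin N → Fin N → K) (x v : Fin N → K) :
    qv c l b (x + v) = qv c l b x + dl l b x v + qq b v := by
  have := qv_add c l b x v 1
  rw [one_smul] at this
  rw [this]
  ring

lemma dl_zero {l : Fin N → K} {b : Fin N → Fin N → K} {x : Fin N → K}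
    (h : ∀ i, gr l b x i = 0) (v : Fin N → K) : dl l b x v = 0 := by
  rw [dl_apply]
  exact Finset.sum_eq_zero fun i _ => by rw [h i, zero_mul]

lemma qq_neg (b : Fin N → Fin N → K) (v : Fin N → K) : qq b (-v) = qq b v := by
  rw [qq_eq, qq_eq]
  simp only [map_neg, LinearMap.neg_apply, neg_neg]

/-- two critical points have the same value, and the quadratic part vanishes on the difference -/
lemma crit_eq [CharZero K] {c : K} {l : Fin N → K} {b : Fin N → Fin N → K} {x y : Fin N → K}
    (hx : ∀ i, gr l b x i = 0) (hy : ∀ i, gr l b y i = 0) :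
    qv c l b x = qv c l b y ∧ qq b (y - x) = 0 := by
  have h1 := qv_add' c l b x (y - x)
  have h2 := qv_add' c l b y (x - y)
  rw [add_sub_cancel, dl_zero hx] at h1
  rw [add_sub_cancel, dl_zero hy, ← neg_sub y x, qq_neg] at h2
  have h3 : (2 : K) * qq b (y - x) = 0 := by linear_combination -h1 - h2
  have h4 := (mul_eq_zero.1 h3).resolve_left two_ne_zero
  refine ⟨?_, h4⟩
  rw [h4] at h1
  linear_combination -h1

end

section

variable {K : Type} [Field K] [CharZero K] {O : Set K} {n : ℕ}

lemma flat_line (hO : Flat O) {a d : K} (h : ∀ s : K, a + s * d ∈ O) : d = 0 := by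
  obtain ⟨e, he⟩ := hO 1 (C a + X * C d) one_ne_zero (fun s _ => by
    simp only [eval_add, eval_mul, eval_C, eval_X, eval_one, div_one]
    exact h s)
  have h0 := congrArg (eval 0) he
  have h1 := congrArg (eval 1) he
  simp only [eval_add, eval_mul, eval_C, eval_X, eval_one] at h0 h1
  linear_combination h1 - h0

/-- the points of a quadric all whose points have the first coordinate in a flat set -/
theorem loc (hO : Flat O) {c : K} {l : Fin (n + 1) → K} {b : Fin (n + 1) → Fin (n + 1) → K}
    (h : ∀ x, qv c l b x = 0 → x 0 ∈ O) {x : Fin (n + 1) → K} (hx : qv c l b x = 0) :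
    (∀ i, gr l b x i = 0) ∨
      ∃ γ κ : K, γ ≠ 0 ∧ ∀ v, qv c l b (x + v) = γ * v 0 + κ * v 0 ^ 2 := by
  by_cases hg : ∀ i, gr l b x i = 0
  · exact Or.inl hg
  right
  push Not at hg
  obtain ⟨i0, hi0⟩ := hg
  have hB0 : dl l b x (Pi.single i0 1) ≠ 0 := by
    rw [dl_apply, Finset.sum_eq_single i0]
    · simpa using hi0
    · intro j _ hj
      rw [Pi.single_eq_of_ne hj, mul_zero]
    · intro h
      exact absurd (Finset.mem_univ _) h
  have hline : ∀ (v : Fin (n + 1) → K) (s : K), qv c l b (x + s • v) =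
      s * dl l b x v + s ^ 2 * qq b v := by
    intro v s
    rw [qv_add, hx, zero_add]
  have hbl : PolyLine fun v : Fin (n + 1) → K => qq b v := PolyLine.bil (bl b)
  have hproj : PolyLine fun v : Fin (n + 1) → K => v 0 :=
    PolyLine.lin (LinearMap.proj (R := K) (φ := fun _ : Fin (n + 1) => K) 0)
  have hmul : PolyLine fun v : Fin (n + 1) → K => dl l b x v * v 0 :=
    (PolyLine.lin (dl l b x)).mul hproj
  obtain ⟨a, d, had, hrel⟩ := prop_of hO (fun v => qq b v)
    (fun v => x 0 * qq b v - dl l b x v * v 0) hbl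
    ((PolyLine.const (x 0)).mul hbl |>.sub hmul) (by
      intro v hv
      have h1 := h (x + (-(dl l b x v / qq b v)) • v) (by
        rw [hline]
        field_simp
        ring)
      have h2 : (x + (-(dl l b x v / qq b v)) • v) 0 =
          (x 0 * qq b v - dl l b x v * v 0) / qq b v := by
        simp only [Pi.add_apply, Pi.smul_apply, smul_eq_mul]
        field_simp
        ring
      rw [h2] at h1
      exact h1)
  have hpr : ¬ ∀ v : Fin (n + 1) → K, dl l b x v * v 0 = 0 := by
    intro h1
    rcases PolyLine.mul_zero (PolyLine.lin (dl l b x)) hproj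
      (fun w => mul_eq_zero.1 (h1 w)) with h2 | h2
    · exact hB0 (h2 _)
    · have := h2 (Pi.single 0 1)
      simp at this
  have hk : a + d * x 0 ≠ 0 := by
    intro h0
    have hd : d ≠ 0 := by
      rintro rfl
      rw [zero_mul, add_zero] at h0
      rcases had with h1 | h1
      · exact h1 h0
      · exact h1 rfl
    apply hpr
    intro v
    have h1 := hrel v
    have h2 : d * (dl l b x v * v 0) = 0 := by linear_combination (qq b v) * h0 - h1
    exact (mul_eq_zero.1 h2).resolve_left hd
  have hqq : ∀ v : Fin (n + 1) → K, (a + d * x 0) * qq b v = d * (dl l b x v * v 0) := by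
    intro v
    have h1 := hrel v
    linear_combination h1
  have hker : ∀ v : Fin (n + 1) → K, dl l b x v = 0 → v 0 = 0 := by
    intro v hv
    have h1 := hqq v
    rw [hv, zero_mul, mul_zero] at h1
    have h2 := (mul_eq_zero.1 h1).resolve_left hk
    refine flat_line hO (a := x 0) fun s => ?_
    have h3 := h (x + s • v) (by rw [hline, hv, h2]; ring)
    exact h3
  set u : Fin (n + 1) → K := Pi.single i0 1 with hu
  have hv0 : ∀ v : Fin (n + 1) → K, v 0 = (dl l b x v / dl l b x u) * u 0 := by
    intro v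
    have h1 := hker (v - (dl l b x v / dl l b x u) • u) (by
      rw [map_sub, map_smul, smul_eq_mul, div_mul_cancel₀ _ hB0, sub_self])
    simp only [Pi.sub_apply, Pi.smul_apply, smul_eq_mul] at h1
    linear_combination h1
  have hu0 : u 0 ≠ 0 := by
    intro h0
    have h1 := hv0 (Pi.single 0 1)
    rw [h0, mul_zero] at h1
    simp at h1
  have hB : ∀ v : Fin (n + 1) → K, dl l b x v = (dl l b x u / u 0) * v 0 := by
    intro v
    have h1 := hv0 v
    field_simp
    rw [h1]
    field_simp
  refine ⟨dl l b x u / u 0, d * (dl l b x u / u 0) / (a + d * x 0), div_ne_zero hB0 hu0,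
    fun v => ?_⟩
  rw [qv_add', hx, zero_add]
  have h1 := hqq v
  have h2 : qq b v = d * (dl l b x v * v 0) / (a + d * x 0) := by
    rw [eq_div_iff hk]
    linear_combination h1
  rw [h2, hB v]
  ring

/-- if all solutions are critical then the first coordinate is unique -/
lemma uniq_of_crit (hO : Flat O) {c : K} {l : Fin (n + 1) → K}
    {b : Fin (n + 1) → Fin (n + 1) → K} (h : ∀ x, qv c l b x = 0 → x 0 ∈ O)
    {x y : Fin (n + 1) → K} (hx : qv c l b x = 0) (hxc : ∀ i, gr l b x i = 0)
    (hyc : ∀ i, gr l b y i = 0) : x 0 = y 0 := by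
  obtain ⟨-, h2⟩ := crit_eq (c := c) hxc hyc
  have h3 : (y - x) 0 = 0 := by
    refine flat_line hO (a := x 0) fun s => ?_
    exact h (x + s • (y - x)) (by rw [qv_add, hx, dl_zero hxc, h2]; ring)
  rw [Pi.sub_apply] at h3
  linear_combination -h3

/-- the first coordinate takes at most two values -/
lemma two_values (hO : Flat O) {c : K} {l : Fin (n + 1) → K}
    {b : Fin (n + 1) → Fin (n + 1) → K} (h : ∀ x, qv c l b x = 0 → x 0 ∈ O) :
    ∃ e₁ e₂ : K, ∀ x, qv c l b x = 0 → x 0 = e₁ ∨ x 0 = e₂ := by
  by_cases h1 : ∀ x, qv c l b x = 0 → ∀ i, gr l b x i = 0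
  · by_cases h2 : ∃ x, qv c l b x = 0
    · obtain ⟨x, hx⟩ := h2
      exact ⟨x 0, x 0, fun y hy => Or.inl (uniq_of_crit hO h hy (h1 y hy) (h1 x hx))⟩
    · exact ⟨0, 0, fun x hx => absurd ⟨x, hx⟩ h2⟩
  · push Not at h1
    obtain ⟨x, hx, i, hi⟩ := h1
    rcases loc hO h hx with h2 | ⟨γ, κ, hγ, h2⟩
    · exact absurd (h2 i) hi
    · refine ⟨x 0, x 0 - γ / κ, fun y hy => ?_⟩
      have h3 := h2 (y - x)
      rw [add_sub_cancel, hy, Pi.sub_apply] at h3
      have h4 : (y 0 - x 0) * (γ + κ * (y 0 - x 0)) = 0 := by linear_combination -h3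
      rcases mul_eq_zero.1 h4 with h5 | h5
      · exact Or.inl (sub_eq_zero.1 h5)
      · right
        have hκ : κ ≠ 0 := by
          rintro rfl
          rw [zero_mul, add_zero] at h5
          exact hγ h5
        field_simp
        linear_combination h5

end

end Pool.Agent.R565.QF
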